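import Pool.Agent.K3h5.FD.Lower
import Pool.Agent.K3h5.FD.Upper

/-!
# The supremum of Fourier dimensions equals the supremum of Hausdorff dimensions

For sets of real numbers avoiding approximate arithmetic progressions.
-/

namespace Pool.Agent.Results.MP_295b98_an.FourierEqualsHausdorff

open Pool.Agent.K3h5.FD

/-- For every `k ≥ 3` and `ε ∈ (0,1)`: the supremum `d(k, ε)` of the Hausdorff dimensions of the
bounded sets of real numbers that `ε`-avoid `k`-APs equals the supremum of the Fourier dimensions
of the Borel sets that `ε`-avoid `k`-APs. -/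
theorem result (k : ℕ) (hk : 3 ≤ k) (ε : ℝ) (hε0 : 0 < ε) (hε1 : ε < 1) :
    dAP k ε = ⨆ (E : Set ℝ) (_ : MeasurableSet E) (_ : AvoidsAP k ε E), dimF E :=
  le_antisymm (dAP_le (by omega) hε0 hε1) le_dAP

end Pool.Agent.Results.MP_295b98_an.FourierEqualsHausdorff
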